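import Pool.Agent.Helper92.TN.GoalsD

/-!
# Project TN (MP_a41896_nt), packet TN-REM, from the goal DEGB
-/

set_option autoImplicit false

open MvPolynomial

namespace Pool.Agent.Helper23.TN.REM

open Pool.Agent.Helper92.TN

/-- the polynomial in `X none` given by a polynomial of one variable has degree `0` in the others -/
lemma degreeOf_none {k ι : Type} [Field k] (i : ι) (p : Polynomial k) :
    degreeOf (some i) (Polynomial.aeval (X none : MvPolynomial (Option ι) k) p) ≤ 0 := by
  rw [Polynomial.aeval_eq_sum_range]
  refine (degreeOf_sum_le _ _ _).trans ?_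
  rw [Finset.sup_le_iff]
  intro m _
  rw [MvPolynomial.smul_eq_C_mul]
  refine (degreeOf_C_mul_le _ _ _).trans ?_
  refine (degreeOf_pow_le _ _ _).trans ?_
  have h : degreeOf (some i) (X none : MvPolynomial (Option ι) k) = 0 := by
    classical
    rw [degreeOf_X]
    simp
  rw [h]; simp

lemma degreeOf_mon {k ι : Type} [Field k] [Fintype ι] [DecidableEq ι] (i : ι) (l : ι → ℕ) :
    degreeOf (some i) (∏ j, (X (some j) : MvPolynomial (Option ι) k) ^ l j) ≤ l i := by
  classical
  refine (degreeOf_prod_le _ _ _).trans ?_
  refine (Finset.sum_le_sum (g := fun j => if j = i then l i else 0) ?_).trans ?_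
  · intro j _
    refine (degreeOf_pow_le _ _ _).trans ?_
    rw [degreeOf_X]
    by_cases h : j = i
    · subst h; simp
    · have : ¬ (some i = some j) := fun h' => h (Option.some_injective _ h').symm
      simp [h, this]
  · simp

theorem t (hD : DEGB) : Pool.Agent.Helper92.TN.REM := by
  intro K Ω _ _ _ _ k S t v hS ht hv halg ι _ _ x N hlt hL
  intro c hc hsum
  set box := Fintype.piFinset (fun i => Finset.range (N i + 1)) with hbox
  by_contra hcon
  push_neg at hcon
  obtain ⟨l0, hl0, hcl0⟩ := hcon
  -- the base field `K(S)`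
  set R := IntermediateField.adjoin K S with hR
  have hRk : R ≤ k := by
    rw [hR, IntermediateField.adjoin_le_iff]; exact hS
  have hvR : ∀ p : Polynomial R, Polynomial.aeval v p = 0 → p = 0 := by
    intro p hp
    by_contra hp0
    apply hv
    refine ⟨p.map (IntermediateField.inclusion hRk).toRingHom, ?_, ?_⟩
    · rw [Ne, Polynomial.map_eq_zero]; exact hp0
    · rw [Polynomial.aeval_def, Polynomial.eval₂_map]
      rw [Polynomial.aeval_def] at hp
      exact hp
  have hfrac : ∀ l, ∃ r s : Polynomial R, Polynomial.aeval v s ≠ 0 ∧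
      c l * Polynomial.aeval v s = Polynomial.aeval v r := by
    intro l
    have h1 : c l ∈ IntermediateField.adjoin K (insert v S) := hc l
    have h2 : c l ∈ (IntermediateField.adjoin R ({v} : Set Ω)).restrictScalars K := by
      rw [hR, IntermediateField.adjoin_adjoin_left]
      rw [Set.union_singleton]
      exact h1
    have h3 : c l ∈ IntermediateField.adjoin R ({v} : Set Ω) := h2
    rw [IntermediateField.mem_adjoin_simple_iff] at h3
    obtain ⟨r, s, hrs⟩ := h3
    by_cases hs : Polynomial.aeval v s = 0
    · refine ⟨0, 1, by simp, ?_⟩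
      rw [hrs, hs]; simp
    · refine ⟨r, s, hs, ?_⟩
      rw [hrs, div_mul_cancel₀ _ hs]
  choose r s hs hrs using hfrac
  let a : (ι → ℕ) → Polynomial R := fun l => r l * ∏ l' ∈ box.erase l, s l'
  set B : Ω := Polynomial.aeval v (∏ l' ∈ box, s l') with hB
  have hB0 : B ≠ 0 := by
    rw [hB, map_prod, Finset.prod_ne_zero_iff]
    intro l _; exact hs l
  have ha : ∀ l ∈ box, Polynomial.aeval v (a l) = c l * B := by
    intro l hl
    simp only [a]
    rw [map_mul, ← hrs, hB, ← Finset.mul_prod_erase box s hl, map_mul]
    ring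
  have ha0 : a l0 ≠ 0 := by
    intro h
    have h1 := ha l0 hl0
    rw [h, map_zero] at h1
    exact mul_ne_zero hcl0 hB0 h1.symm
  obtain ⟨ω, hω⟩ : ∃ ω : R, (a l0).eval ω ≠ 0 := by
    by_contra hno
    push_neg at hno
    exact ha0 (Polynomial.funext (fun z => by rw [hno z]; simp))
  -- the relation
  let φ : R →+* k := (IntermediateField.inclusion hRk).toRingHom
  let P : MvPolynomial (Option ι) k := ∑ l ∈ box,
    Polynomial.aeval (X none : MvPolynomial (Option ι) k) ((a l).map φ) *
      ∏ j, (X (some j) : MvPolynomial (Option ι) k) ^ l j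
  have hPe : ∀ z : Ω, aeval (fun o : Option ι => o.elim z x) P =
      ∑ l ∈ box, Polynomial.aeval z (a l) * ∏ i, x i ^ l i := by
    intro z
    simp only [P]
    rw [map_sum]
    refine Finset.sum_congr rfl (fun l _ => ?_)
    rw [map_mul, map_prod]
    congr 1
    · rw [← Polynomial.aeval_algHom_apply, aeval_X]
      simp only [Option.elim]
      rw [Polynomial.aeval_def, Polynomial.eval₂_map, Polynomial.aeval_def]
      rfl
    · refine Finset.prod_congr rfl (fun j _ => ?_)
      rw [map_pow, aeval_X]
      rfl
  have hdeg : ∀ i, degreeOf (some i) P ≤ N i := by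
    intro i
    refine (degreeOf_sum_le _ _ _).trans ?_
    rw [Finset.sup_le_iff]
    intro l hl
    refine (degreeOf_mul_le _ _ _).trans ?_
    have h1 := degreeOf_none (k := k) i ((a l).map φ)
    have h2 := degreeOf_mon (k := k) i l
    have h3 : l i ≤ N i := by
      rw [hbox, Fintype.mem_piFinset] at hl
      have := hl i
      rw [Finset.mem_range] at this
      omega
    omega
  have hzero : aeval (fun o : Option ι => o.elim v x) P = 0 := by
    rw [hPe]
    have : ∀ l ∈ box, Polynomial.aeval v (a l) * ∏ i, x i ^ l i = B * (c l * ∏ i, x i ^ l i) := by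
      intro l hl
      rw [ha l hl]; ring
    rw [Finset.sum_congr rfl this, ← Finset.mul_sum, hsum, mul_zero]
  have hne : ∃ z : Ω, aeval (fun o : Option ι => o.elim z x) P ≠ 0 := by
    refine ⟨(ω : Ω), ?_⟩
    rw [hPe]
    intro h0
    have h1 : ∀ l, Polynomial.aeval (ω : Ω) (a l) = (((a l).eval ω : R) : Ω) := by
      intro l
      have := Polynomial.aeval_algebraMap_apply (A := R) Ω ω (a l)
      rw [Polynomial.coe_aeval_eq_eval] at this
      exact this
    have h2 := hL (fun l => (((a l).eval ω : R) : Ω)) (fun l => SetLike.coe_mem _) (by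
      rw [← h0]
      refine Finset.sum_congr rfl (fun l _ => ?_)
      rw [h1]) l0 hl0
    apply hω
    exact_mod_cast h2
  have := hD k Ω t ht halg ι x v N P hdeg hzero hne
  linarith

end Pool.Agent.Helper23.TN.REM
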